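import Mathlib
import Pool.Agent.Q148.Sup.Arith

/-!
# MP_4ba7b3_gt, Q1: the supremum `s_b` need not be compatible with `λ_b`

There is a D-sequence `b` for which the supremum `s_b` of all the topologies `τ_c` (`c` in
`D_∞` with `λ_c = λ_b`) has a continuous character whose value at `1` is not of the form
`k / b_n + ℤ`. Two sequences `c` suffice.
-/

namespace Pool.Agent.Results.MP_4ba7b3_gt.SupNotCompatible

open Filter Topology

/-- D-sequences. -/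
def IsD (b : ℕ → ℕ) : Prop :=
  b 0 = 1 ∧ ∀ n, 0 < b n ∧ b n ∣ b (n + 1) ∧ b n ≠ b (n + 1)

/-- D-sequences whose ratios tend to infinity. -/
def IsDInf (c : ℕ → ℕ) : Prop :=
  IsD c ∧ Tendsto (fun n => (c (n + 1) : ℝ) / c n) atTop atTop

/-- The linear topology `λ_b` on the integers, generated by the cosets of the subgroups
`b_n ℤ`. -/
def lam (b : ℕ → ℕ) : TopologicalSpace ℤ :=
  TopologicalSpace.generateFrom {U | ∃ (n : ℕ) (k : ℤ), U = {m : ℤ | (b n : ℤ) ∣ m - k}}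

/-- The topology `τ_c` of uniform convergence on `{1 / c_n + ℤ : n ≥ 1}`: a set `U` is open if
for each `k ∈ U` there is `ε > 0` such that all `m` with `‖(m - k) / c_n‖ ≤ ε` for all `n ≥ 1`
belong to `U`. -/
def tau (c : ℕ → ℕ) : TopologicalSpace ℤ where
  IsOpen U := ∀ k ∈ U, ∃ ε > 0, ∀ m : ℤ,
    (∀ n, 1 ≤ n → ‖((((m - k : ℤ) : ℝ) / c n : ℝ) : AddCircle (1 : ℝ))‖ ≤ ε) → m ∈ U
  isOpen_univ := fun _ _ => ⟨1, one_pos, fun _ _ => trivial⟩
  isOpen_inter := by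
    intro U V hU hV k hk
    obtain ⟨ε, hε, h⟩ := hU k hk.1
    obtain ⟨δ, hδ, h'⟩ := hV k hk.2
    refine ⟨min ε δ, lt_min hε hδ, fun m hm => ⟨h m fun n hn => ?_, h' m fun n hn => ?_⟩⟩
    · exact (hm n hn).trans (min_le_left _ _)
    · exact (hm n hn).trans (min_le_right _ _)
  isOpen_sUnion := by
    intro S hS k hk
    obtain ⟨U, hU, hkU⟩ := hk
    obtain ⟨ε, hε, h⟩ := hS U hU k hkU
    exact ⟨ε, hε, fun m hm => ⟨U, hU, h m hm⟩⟩

/-- The supremum `s_b`: the coarsest topology which is finer than `τ_c` for each `c` in `D_∞`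
with `λ_c = λ_b` (in Mathlib's order of topologies, this is an infimum). -/
def supTop (b : ℕ → ℕ) : TopologicalSpace ℤ :=
  sInf {t | ∃ c : ℕ → ℕ, IsDInf c ∧ lam c = lam b ∧ t = tau c}

open Pool.Agent.Q148.Sup

/-! ### doubling -/

lemma norm_two {x : AddCircle (1 : ℝ)} (h : ‖x‖ ≤ 1 / 4) : ‖(2 : ℕ) • x‖ = 2 * ‖x‖ := by
  induction x using QuotientAddGroup.induction_on with
  | H r =>
    have hr : ‖(r : AddCircle (1 : ℝ))‖ = |r - round r| := by
      rw [AddCircle.norm_eq]; simp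
    have h1 : ((r - round r : ℝ) : AddCircle (1 : ℝ)) = (r : AddCircle (1 : ℝ)) := by
      rw [AddCircle.coe_sub]
      have : (((round r : ℤ) : ℝ) : AddCircle (1 : ℝ)) = 0 := by
        rw [AddCircle.coe_eq_zero_iff]
        exact ⟨round r, by simp⟩
      rw [this, sub_zero]
    set t := r - round r with ht
    change ‖(2 : ℕ) • (r : AddCircle (1 : ℝ))‖ = 2 * ‖(r : AddCircle (1 : ℝ))‖
    change ‖(r : AddCircle (1 : ℝ))‖ ≤ 1 / 4 at h
    rw [hr] at h ⊢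
    rw [← h1, ← AddCircle.coe_nsmul]
    have h2 : |(2 : ℕ) • t| ≤ 1 / 2 := by
      rw [nsmul_eq_mul, abs_mul]
      push_cast
      rw [abs_of_pos (two_pos)]
      linarith
    have h3 := (AddCircle.norm_coe_eq_abs_iff (1 : ℝ) (x := (2 : ℕ) • t) one_ne_zero).2 (by
      simpa using h2)
    rw [h3, nsmul_eq_mul, abs_mul]
    push_cast
    rw [abs_of_pos (two_pos)]

lemma norm_pow {x : AddCircle (1 : ℝ)} {η : ℝ} (hη : η ≤ 1 / 4) (J : ℕ)
    (h : ∀ j ≤ J, ‖(2 ^ j : ℕ) • x‖ ≤ η) : ‖(2 ^ J : ℕ) • x‖ = 2 ^ J * ‖x‖ := by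
  induction J with
  | zero => simp
  | succ J ih =>
    have h1 := ih fun j hj => h j (hj.trans (Nat.le_succ J))
    have h2 : (2 ^ (J + 1) : ℕ) • x = (2 : ℕ) • ((2 ^ J : ℕ) • x) := by
      rw [← mul_nsmul', pow_succ, mul_comm]
    rw [h2, norm_two ((h J (Nat.le_succ J)).trans hη), h1]
    ring

lemma norm_le {x : AddCircle (1 : ℝ)} {η : ℝ} (hη : η ≤ 1 / 4) (J : ℕ)
    (h : ∀ j ≤ J, ‖(2 ^ j : ℕ) • x‖ ≤ η) : ‖x‖ ≤ η / 2 ^ J := by
  rw [le_div_iff₀ (by positivity), mul_comm, ← norm_pow hη J h]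
  exact h J le_rfl

lemma eq_zero {x : AddCircle (1 : ℝ)} (h : ∀ j : ℕ, ‖j • x‖ ≤ 1 / 4) : x = 0 := by
  by_contra hx
  have hpos : 0 < ‖x‖ := norm_pos_iff.2 hx
  obtain ⟨J, hJ⟩ := exists_pow_lt_of_lt_one hpos (by norm_num : (1 / 2 : ℝ) < 1)
  have h1 := norm_le (le_refl (1 / 4 : ℝ)) J (fun j _ => h (2 ^ j)) (x := x)
  have h2 : (1 / 4 : ℝ) / 2 ^ J ≤ (1 / 2) ^ J := by
    rw [div_pow, one_pow]
    exact div_le_div_of_nonneg_right (by norm_num) (by positivity)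
  linarith

/-! ### the sequences -/

lemma isD_b : IsD b := ⟨rfl, fun n => ⟨b_pos n, b_dvd (Nat.le_succ n), (b_lt n).ne⟩⟩

lemma isDInf_c (s : Bool) : IsDInf (c s) := by
  refine ⟨⟨c_zero s, fun n => ⟨C_pos (c_mem s n), c_dvd s n,
    (c_strictMono s (Nat.lt_succ_self n)).ne⟩⟩, ?_⟩
  rw [tendsto_atTop]
  intro r
  obtain ⟨R, hR⟩ := exists_nat_ge r
  filter_upwards [eventually_ge_atTop (b R)] with i hi
  have h1 := c_ratio s R i hi
  have hpos : (0 : ℝ) < c s i := by exact_mod_cast C_pos (c_mem s i)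
  rw [le_div_iff₀ hpos]
  have h2 : ((R + 1 : ℕ) : ℝ) * c s i ≤ c s (i + 1) := by exact_mod_cast h1
  refine le_trans ?_ h2
  refine mul_le_mul_of_nonneg_right ?_ hpos.le
  push_cast
  linarith

lemma lam_le {b c : ℕ → ℕ} (h : ∀ n, ∃ m, b n ∣ c m) : lam c ≤ lam b := by
  refine le_generateFrom ?_
  rintro U ⟨n, k, rfl⟩
  obtain ⟨m, hm⟩ := h n
  have hU : {x : ℤ | (b n : ℤ) ∣ x - k} =
      ⋃ y ∈ {x : ℤ | (b n : ℤ) ∣ x - k}, {x : ℤ | (c m : ℤ) ∣ x - y} := by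
    ext x
    simp only [Set.mem_iUnion, exists_prop, Set.mem_ofPred_eq]
    constructor
    · intro hx
      exact ⟨x, hx, by simp⟩
    · rintro ⟨y, hy, hxy⟩
      have h1 : (b n : ℤ) ∣ x - y := (Int.natCast_dvd_natCast.2 hm).trans hxy
      have : x - k = (x - y) + (y - k) := by ring
      rw [this]
      exact dvd_add h1 hy
  rw [hU]
  refine @isOpen_biUnion _ _ (lam c) _ _ fun y _ => ?_
  exact TopologicalSpace.isOpen_generateFrom_of_mem ⟨m, y, rfl⟩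

lemma lam_c (s : Bool) : lam (c s) = lam b := by
  refine le_antisymm (lam_le fun n => ?_) (lam_le fun n => ?_)
  · obtain ⟨i, hi⟩ := c_surj (mem_b s n)
    exact ⟨i, hi ▸ dvd_rfl⟩
  · rcases C_block (c_mem s n) with h | ⟨m, _, _, _, p, hp, h⟩
    · exact ⟨0, by rw [h]; exact one_dvd _⟩
    · exact ⟨m + 1, C_le hp h⟩

/-! ### the number `α` -/

lemma b_real (n i : ℕ) : (4 : ℝ) ^ i * b n ≤ b (n + i) := by exact_mod_cast b_four n i

lemma term_le (n i : ℕ) : (b n : ℝ) / b (n + i + 1) ≤ 1 / 4 * (1 / 4) ^ i := by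
  have h := b_real n (i + 1)
  have h1 : (0 : ℝ) < b (n + i + 1) := by exact_mod_cast b_pos _
  have h2 : n + (i + 1) = n + i + 1 := by ring
  rw [h2] at h
  rw [div_le_iff₀ h1]
  have h3 : (0 : ℝ) < 4 ^ (i + 1) := by positivity
  calc (b n : ℝ) = 1 / 4 ^ (i + 1) * (4 ^ (i + 1) * b n) := by field_simp
    _ ≤ 1 / 4 ^ (i + 1) * b (n + i + 1) := mul_le_mul_of_nonneg_left h (by positivity)
    _ = _ := by rw [one_div_pow, pow_succ]; field_simp

lemma summable_tail (n : ℕ) : Summable fun i => (b n : ℝ) / b (n + i + 1) := by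
  refine Summable.of_nonneg_of_le (fun i => by positivity) (term_le n) ?_
  exact (summable_geometric_of_lt_one (by norm_num) (by norm_num)).mul_left _

/-- the tail `b n * ∑_{i ≥ n} 1 / b (i + 1)` -/
noncomputable def T (n : ℕ) : ℝ := ∑' i, (b n : ℝ) / b (n + i + 1)

lemma T_pos (n : ℕ) : 0 < T n :=
  (summable_tail n).tsum_pos (fun i => by positivity) 0 (by
    have h1 : (0 : ℝ) < b n := by exact_mod_cast b_pos _
    have h2 : (0 : ℝ) < b (n + 0 + 1) := by exact_mod_cast b_pos _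
    positivity)

lemma T_lt (n : ℕ) : T n < 1 := by
  have h1 : T n ≤ ∑' i : ℕ, 1 / 4 * (1 / 4 : ℝ) ^ i :=
    (summable_tail n).tsum_le_tsum (term_le n)
      ((summable_geometric_of_lt_one (by norm_num) (by norm_num)).mul_left _)
  rw [tsum_mul_left, tsum_geometric_of_lt_one (by norm_num) (by norm_num)] at h1
  norm_num at h1
  linarith

lemma summable_one : Summable fun i => (1 : ℝ) / b (i + 1) := by
  have := summable_tail 0
  simpa [b] using this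

/-- the number `α` -/
noncomputable def α : ℝ := ∑' i, (1 : ℝ) / b (i + 1)

lemma mul_α (n : ℕ) : ∃ z : ℤ, (b n : ℝ) * α = z + T n := by
  have h1 : (b n : ℝ) * α = ∑' i, (b n : ℝ) / b (i + 1) := by
    rw [α, ← tsum_mul_left]
    refine tsum_congr fun i => by ring
  have hs : Summable fun i => (b n : ℝ) / b (i + 1) := by
    have := summable_one.mul_left (b n : ℝ)
    refine this.congr fun i => by ring
  have h2 := hs.sum_add_tsum_nat_add n
  rw [h1, ← h2]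
  refine ⟨∑ i ∈ Finset.range n, ((b n / b (i + 1) : ℕ) : ℤ), ?_⟩
  have h3 : ∑ i ∈ Finset.range n, (b n : ℝ) / b (i + 1) =
      ((∑ i ∈ Finset.range n, ((b n / b (i + 1) : ℕ) : ℤ) : ℤ) : ℝ) := by
    rw [Int.cast_sum]
    refine Finset.sum_congr rfl fun i hi => ?_
    have hd : b (i + 1) ∣ b n := b_dvd (Finset.mem_range.1 hi)
    have hne : ((b (i + 1) : ℕ) : ℝ) ≠ 0 := by exact_mod_cast (b_pos _).ne'
    rw [Int.cast_natCast, Nat.cast_div hd hne]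
  rw [h3, T]
  congr 1
  refine tsum_congr fun i => ?_
  rw [show i + n + 1 = n + i + 1 by ring]

/-- the character `k ↦ k α` -/
noncomputable def χ : ℤ →+ AddCircle (1 : ℝ) :=
  (zmultiplesHom (AddCircle (1 : ℝ))) (α : AddCircle (1 : ℝ))

lemma χ_apply (k : ℤ) : χ k = ((k * α : ℝ) : AddCircle (1 : ℝ)) := by
  simp [χ, zmultiplesHom_apply]

lemma χ_b_ne (n : ℕ) : χ (b n) ≠ 0 := by
  rw [χ_apply]
  push_cast
  obtain ⟨z, hz⟩ := mul_α n
  rw [hz, Ne, AddCircle.coe_eq_zero_iff]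
  rintro ⟨m, hm⟩
  have h1 := T_pos n
  have h2 := T_lt n
  simp only [zsmul_eq_mul, mul_one] at hm
  have h3 : T n = ((m - z : ℤ) : ℝ) := by push_cast; linarith
  rw [h3] at h1 h2
  have h4 : 0 < m - z := by exact_mod_cast h1
  have h5 : m - z < 1 := by exact_mod_cast h2
  omega

/-! ### continuity -/

/-- the main estimate -/
lemma main_est {ε : ℝ} (hε : ε ≤ 1 / 8) {k : ℤ}
    (h : ∀ s n, 1 ≤ n → ‖(((k : ℝ) / c s n : ℝ) : AddCircle (1 : ℝ))‖ ≤ ε) (hε0 : 0 ≤ ε) (n : ℕ) :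
    ‖(((k : ℝ) / b (n + 1) : ℝ) : AddCircle (1 : ℝ))‖ ≤ 2 * ε / 2 ^ (n + 1) := by
  have key : ∀ s : Bool, ∀ j ≤ n + 1,
      ‖(sel s (ab (n + 1) j)) • (((k : ℝ) / b (n + 1) : ℝ) : AddCircle (1 : ℝ))‖ ≤ ε := by
    intro s j hj
    obtain ⟨m, hm⟩ : ∃ m, m * sel s (ab (n + 1) j) = b (n + 1) := by
      have h1 : sel s (ab (n + 1) j) ∣ b (n + 1) := by
        rw [b_succ]
        refine Dvd.dvd.mul_left ((sel_dvd s (n + 1) hj).trans ?_) _
        have : Q n = sel s (ab (n + 1) (n + 1)) * sel (!s) (ab (n + 1) (n + 1)) := by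
          rw [sel_mul]; rfl
        rw [this]
        exact Dvd.intro _ rfl
      obtain ⟨m, hm⟩ := h1
      exact ⟨m, by rw [hm, mul_comm]⟩
    obtain ⟨i, hi⟩ := c_surj (s := s) (m := m) ⟨n, Or.inr ⟨j, hj, hm⟩⟩
    have hmpos : 0 < m := C_pos (s := s) ⟨n, Or.inr ⟨j, hj, hm⟩⟩
    have hsp := sel_pos s n j
    have h2 : (sel s (ab (n + 1) j)) • (((k : ℝ) / b (n + 1) : ℝ) : AddCircle (1 : ℝ)) =
        (((k : ℝ) / c s i : ℝ) : AddCircle (1 : ℝ)) := by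
      rw [← AddCircle.coe_nsmul]
      congr 1
      rw [hi, nsmul_eq_mul, ← hm]
      push_cast
      have h3 : (m : ℝ) ≠ 0 := by exact_mod_cast hmpos.ne'
      have h4 : (sel s (ab (n + 1) j) : ℝ) ≠ 0 := by exact_mod_cast hsp.ne'
      field_simp
    rw [h2]
    rcases Nat.eq_zero_or_pos i with rfl | hi0
    · rw [c_zero]
      have : (((k : ℝ) / ((1 : ℕ) : ℝ) : ℝ) : AddCircle (1 : ℝ)) = 0 := by
        rw [AddCircle.coe_eq_zero_iff]
        exact ⟨k, by simp⟩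
      rw [this, norm_zero]
      exact hε0
    · exact h s i hi0
  refine norm_le (by linarith) (n + 1) fun j hj => ?_
  have h1 := key true j hj
  have h2 := key false j hj
  have h3 : sel false (ab (n + 1) j) = sel true (ab (n + 1) j) + 2 ^ j := ab_diff (n + 1) j
  rw [h3, add_nsmul] at h2
  calc ‖(2 ^ j : ℕ) • (((k : ℝ) / b (n + 1) : ℝ) : AddCircle (1 : ℝ))‖
      = ‖((sel true (ab (n + 1) j)) • (((k : ℝ) / b (n + 1) : ℝ) : AddCircle (1 : ℝ)) +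
          (2 ^ j : ℕ) • (((k : ℝ) / b (n + 1) : ℝ) : AddCircle (1 : ℝ))) -
          (sel true (ab (n + 1) j)) • (((k : ℝ) / b (n + 1) : ℝ) : AddCircle (1 : ℝ))‖ := by
        congr 1; abel
    _ ≤ _ := norm_sub_le _ _
    _ ≤ 2 * ε := by linarith

lemma geo (ε : ℝ) (N : ℕ) :
    ∑ i ∈ Finset.range N, 2 * ε / 2 ^ (i + 1) = 2 * ε * (1 - 1 / 2 ^ N) := by
  induction N with
  | zero => simp
  | succ N ih =>
    rw [Finset.sum_range_succ, ih]
    field_simp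
    ring

lemma coe_sum (N : ℕ) (f : ℕ → ℝ) :
    ((∑ i ∈ Finset.range N, f i : ℝ) : AddCircle (1 : ℝ)) =
      ∑ i ∈ Finset.range N, ((f i : ℝ) : AddCircle (1 : ℝ)) := by
  induction N with
  | zero => simp
  | succ N ih => rw [Finset.sum_range_succ, Finset.sum_range_succ, ← ih, AddCircle.coe_add]

lemma χ_est {ε : ℝ} (hε : ε ≤ 1 / 8) (hε0 : 0 ≤ ε) {k : ℤ}
    (h : ∀ s n, 1 ≤ n → ‖(((k : ℝ) / c s n : ℝ) : AddCircle (1 : ℝ))‖ ≤ ε) :
    ‖χ k‖ ≤ 2 * ε := by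
  have hs : HasSum (fun i => (k : ℝ) / b (i + 1)) (k * α) := by
    have h1 := summable_one.hasSum.mul_left (k : ℝ)
    have h2 : (fun i => (k : ℝ) / b (i + 1)) = fun i => (k : ℝ) * (1 / b (i + 1)) := by
      funext i; ring
    rw [h2]
    exact h1
  have hN : ∀ N, ‖((∑ i ∈ Finset.range N, (k : ℝ) / b (i + 1) : ℝ) : AddCircle (1 : ℝ))‖ ≤
      2 * ε := by
    intro N
    rw [coe_sum]
    refine (norm_sum_le _ _).trans ?_
    refine (Finset.sum_le_sum fun i _ => main_est hε h hε0 i).trans ?_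
    rw [geo]
    have : (0 : ℝ) ≤ 1 / 2 ^ N := by positivity
    nlinarith
  have hcont : Continuous fun x : ℝ => ‖(x : AddCircle (1 : ℝ))‖ :=
    continuous_norm.comp (AddCircle.continuous_mk' (1 : ℝ))
  have hlim := (hcont.tendsto (k * α)).comp hs.tendsto_sum_nat
  rw [χ_apply]
  exact le_of_tendsto' hlim hN

lemma tri (c : ℕ → ℕ) (n : ℕ) (l m k : ℤ) :
    ‖((((l - k : ℤ) : ℝ) / c n : ℝ) : AddCircle (1 : ℝ))‖ ≤
      ‖((((l - m : ℤ) : ℝ) / c n : ℝ) : AddCircle (1 : ℝ))‖ +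
        ‖((((m - k : ℤ) : ℝ) / c n : ℝ) : AddCircle (1 : ℝ))‖ := by
  have : ((((l - k : ℤ) : ℝ) / c n : ℝ) : AddCircle (1 : ℝ)) =
      ((((l - m : ℤ) : ℝ) / c n : ℝ) : AddCircle (1 : ℝ)) +
        ((((m - k : ℤ) : ℝ) / c n : ℝ) : AddCircle (1 : ℝ)) := by
    rw [← AddCircle.coe_add]
    congr 1
    push_cast
    ring
  rw [this]
  exact norm_add_le _ _

lemma ball_mem (c : ℕ → ℕ) (k : ℤ) {ε : ℝ} (hε : 0 < ε) :
    {m : ℤ | ∀ n, 1 ≤ n → ‖((((m - k : ℤ) : ℝ) / c n : ℝ) : AddCircle (1 : ℝ))‖ ≤ ε} ∈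
      @nhds ℤ (tau c) k := by
  refine (@mem_nhds_iff ℤ (tau c) k _).2 ⟨{m : ℤ | ∃ η > 0, ∀ l : ℤ,
    (∀ n, 1 ≤ n → ‖((((l - m : ℤ) : ℝ) / c n : ℝ) : AddCircle (1 : ℝ))‖ ≤ η) →
    ∀ n, 1 ≤ n → ‖((((l - k : ℤ) : ℝ) / c n : ℝ) : AddCircle (1 : ℝ))‖ ≤ ε}, ?_, ?_, ?_⟩
  · rintro m ⟨η, hη, h⟩
    refine h m fun n _ => ?_
    rw [sub_self]
    simpa using hη.le
  · rintro m ⟨η, hη, h⟩
    refine ⟨η / 2, half_pos hη, fun m' hm' => ⟨η / 2, half_pos hη, fun l hl => h l fun n hn => ?_⟩⟩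
    have := tri c n l m' m
    have h1 := hl n hn
    have h2 := hm' n hn
    linarith
  · exact ⟨ε, hε, fun l hl => hl⟩

lemma cont_inf : @Continuous ℤ (AddCircle (1 : ℝ)) (tau (c true) ⊓ tau (c false)) _ χ := by
  refine (@continuous_iff_continuousAt ℤ (AddCircle (1 : ℝ)) (tau (c true) ⊓ tau (c false)) _
    χ).2 fun k => ?_
  refine Metric.tendsto_nhds.2 fun δ hδ => ?_
  set ε := min (1 / 8) (δ / 4) with hεdef
  have hε : 0 < ε := lt_min (by norm_num) (by linarith)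
  have h1 := ball_mem (c true) k hε
  have h2 := ball_mem (c false) k hε
  have h3 := inter_mem_inf h1 h2
  rw [← nhds_inf] at h3
  filter_upwards [h3] with m hm
  have h4 : ‖χ (m - k)‖ ≤ 2 * ε := by
    refine χ_est (min_le_left _ _) hε.le fun s n hn => ?_
    cases s
    · exact hm.2 n hn
    · exact hm.1 n hn
  rw [dist_eq_norm, ← map_sub]
  have h5 : ε ≤ δ / 4 := min_le_right _ _
  linarith

lemma supTop_le (s : Bool) : supTop b ≤ tau (c s) :=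
  sInf_le ⟨c s, isDInf_c s, lam_c s, rfl⟩

lemma cont_sup : @Continuous ℤ (AddCircle (1 : ℝ)) (supTop b) _ χ :=
  continuous_le_dom (le_inf (supTop_le true) (supTop_le false)) cont_inf

lemma not_cont_lam : ¬ @Continuous ℤ (AddCircle (1 : ℝ)) (lam b) _ χ := by
  intro h
  have h0 := (@continuous_iff_continuousAt ℤ (AddCircle (1 : ℝ)) (lam b) _ χ).1 h 0
  have h1 : ∀ᶠ m in @nhds ℤ (lam b) 0, ‖χ m‖ < 1 / 4 := by
    have := (Metric.tendsto_nhds.1 h0) (1 / 4) (by norm_num)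
    filter_upwards [this] with m hm
    simpa [dist_eq_norm] using hm
  obtain ⟨U, hU, hUo, h0U⟩ := (@mem_nhds_iff ℤ (lam b) 0 _).1 h1
  have h2 : ∀ V : Set ℤ, @IsOpen ℤ (lam b) V → ∀ k ∈ V, ∃ n, ∀ m, (b n : ℤ) ∣ m - k → m ∈ V := by
    intro V hV
    induction hV with
    | basic V hV =>
      obtain ⟨n, k, rfl⟩ := hV
      intro k' hk'
      refine ⟨n, fun m hm => ?_⟩
      have : m - k = (m - k') + (k' - k) := by ring
      change (b n : ℤ) ∣ m - k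
      rw [this]
      exact dvd_add hm hk'
    | univ => exact fun k _ => ⟨0, fun m _ => trivial⟩
    | inter V W _ _ ihV ihW =>
      rintro k ⟨hkV, hkW⟩
      obtain ⟨n, hn⟩ := ihV k hkV
      obtain ⟨n', hn'⟩ := ihW k hkW
      refine ⟨max n n', fun m hm => ⟨hn m ?_, hn' m ?_⟩⟩
      · exact (Int.natCast_dvd_natCast.2 (b_dvd (le_max_left _ _))).trans hm
      · exact (Int.natCast_dvd_natCast.2 (b_dvd (le_max_right _ _))).trans hm
    | sUnion S _ ih =>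
      rintro k ⟨V, hV, hkV⟩
      obtain ⟨n, hn⟩ := ih V hV k hkV
      exact ⟨n, fun m hm => ⟨V, hV, hn m hm⟩⟩
  obtain ⟨n, hn⟩ := h2 U hUo 0 h0U
  refine χ_b_ne n (eq_zero fun j => ?_)
  have h3 : ((j : ℤ) * b n) ∈ U := hn _ (by rw [sub_zero]; exact dvd_mul_left _ _)
  have h4 := hU h3
  have h5 : χ ((j : ℤ) * b n) = j • χ (b n) := by
    rw [← nsmul_eq_mul, map_nsmul]
  rw [← h5]
  exact (le_of_lt h4)

lemma value (k : ℤ) (n : ℕ) : χ 1 ≠ (((k : ℝ) / b n : ℝ) : AddCircle (1 : ℝ)) := by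
  intro h
  apply χ_b_ne n
  have h1 : χ (b n) = (b n) • χ 1 := by
    rw [← map_nsmul, nsmul_eq_mul, mul_one]
  rw [h1, h, ← AddCircle.coe_nsmul, AddCircle.coe_eq_zero_iff]
  refine ⟨k, ?_⟩
  have h2 : (b n : ℝ) ≠ 0 := by exact_mod_cast (b_pos n).ne'
  rw [nsmul_eq_mul, zsmul_eq_mul, mul_one]
  field_simp

/-- There are a D-sequence `b` and a homomorphism `χ : ℤ → ℝ / ℤ` which is continuous for the
supremum `s_b` of all `τ_c` with `c ∈ D_∞` and `λ_c = λ_b` (even for the supremum of two of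
them), which is not continuous for `λ_b`, and whose value at `1` is not of the form
`k / b_n + ℤ`. -/
theorem result : ∃ b : ℕ → ℕ, IsD b ∧ ∃ χ : ℤ →+ AddCircle (1 : ℝ),
    @Continuous ℤ (AddCircle (1 : ℝ)) (supTop b) _ χ ∧
    (∃ c₁ c₂ : ℕ → ℕ, IsDInf c₁ ∧ IsDInf c₂ ∧ lam c₁ = lam b ∧ lam c₂ = lam b ∧
      @Continuous ℤ (AddCircle (1 : ℝ)) (tau c₁ ⊓ tau c₂) _ χ) ∧
    ¬ @Continuous ℤ (AddCircle (1 : ℝ)) (lam b) _ χ ∧
    ∀ (k : ℤ) (n : ℕ), χ 1 ≠ (((k : ℝ) / b n : ℝ) : AddCircle (1 : ℝ)) :=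
  ⟨b, isD_b, χ, cont_sup,
    ⟨c true, c false, isDInf_c true, isDInf_c false, lam_c true, lam_c false, cont_inf⟩,
    not_cont_lam, value⟩

end Pool.Agent.Results.MP_4ba7b3_gt.SupNotCompatible
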